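import Pool.Agent.SZT.StmtsC

set_option autoImplicit false

/-! # SZT, row DSH: discriminant and `H` -/

namespace Pool.Agent.SZT.H69

open Polynomial NumberField

theorem discr_five {R : Type} [CommRing R] [Nontrivial R] {f : R[X]} (hf : f.Monic)
    (h5 : f.natDegree = 5) : discr f = resultant f (derivative f) 5 4 := by
  have h := resultant_deriv (f := f) (by rw [← natDegree_pos_iff_degree_pos]; omega)
  rw [h5, hf.leadingCoeff] at h
  norm_num at h
  exact h.symm

theorem discr_map_five {R S : Type} [CommRing R] [Nontrivial R] [CommRing S] [Nontrivial S]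
    (φ : R →+* S) {f : R[X]} (hf : f.Monic) (h5 : f.natDegree = 5) :
    discr (f.map φ) = φ (discr f) := by
  rw [discr_five hf h5, discr_five (hf.map φ) (by rw [hf.natDegree_map, h5]), derivative_map,
    resultant_map_map]

theorem discr_ne_zero {K : Type} [Field K] [CharZero K] {f : K[X]} (hf : f.Monic)
    (h5 : f.natDegree = 5) (hs : Squarefree f) : discr f ≠ 0 := by
  rw [discr_five hf h5]
  have hsep : IsCoprime f (derivative f) := PerfectField.separable_iff_squarefree.2 hs
  have h := resultant_ne_zero f (derivative f) hsep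
  have h4 : (derivative f).natDegree = 4 := by
    have := degree_derivative_eq f (by omega)
    rw [h5] at this
    exact natDegree_eq_of_degree_eq_some this
  rwa [h5, h4] at h

/-- A split monic quintic is a product of linear factors. -/
theorem exists_theta {F : ℂ[X]} (hF : F.Monic) (h5 : F.natDegree = 5) :
    ∃ θ : Fin 5 → ℂ, F = ∏ i, (X - C (θ i)) := by
  have hs : F.Splits := IsAlgClosed.splits F
  have hcard : F.roots.card = 5 := by rw [← h5]; exact hs.natDegree_eq_card_roots.symm
  obtain ⟨l, hl⟩ := Quot.exists_rep F.roots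
  have hl' : (l : Multiset ℂ) = F.roots := hl
  have hlen : l.length = 5 := by rw [← hcard, ← hl', Multiset.coe_card]
  refine ⟨fun i => l.get (Fin.cast hlen.symm i), ?_⟩
  have h1 : F = (F.roots.map fun a => X - C a).prod := by
    have := hs.eq_prod_roots
    rwa [hF.leadingCoeff, C_1, one_mul] at this
  rw [← hl', Multiset.map_coe, Multiset.prod_coe] at h1
  rw [h1]
  have h2 : ∏ i : Fin 5, (X - C (l.get (Fin.cast hlen.symm i))) =
      ∏ i : Fin l.length, (X - C (l.get i)) :=
    Equiv.prod_comp (finCongr hlen.symm) (fun i : Fin l.length => X - C (l.get i))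
  rw [h2, ← List.prod_ofFn]
  congr 1
  apply List.ext_get
  · simp
  · intro n h3 h4
    simp

theorem dsc_le {F : ℂ[X]} {θ : Fin 5 → ℂ} (hF : F = ∏ i, (X - C (θ i))) :
    ‖dsc θ‖ ≤ spr F ^ 20 ∧ 0 ≤ spr F := by
  have hF0 : F ≠ 0 := by
    rw [hF]
    exact Finset.prod_ne_zero_iff.2 fun i _ => X_sub_C_ne_zero _
  have hroot : ∀ i, F.IsRoot (θ i) := by
    intro i
    rw [hF, IsRoot.def, eval_prod]
    exact Finset.prod_eq_zero (Finset.mem_univ i) (by simp)
  have hbdd : BddAbove {r : ℝ | ∃ a b : ℂ, F.IsRoot a ∧ F.IsRoot b ∧ r = ‖a - b‖} := by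
    have hfin : {r : ℝ | ∃ a b : ℂ, F.IsRoot a ∧ F.IsRoot b ∧ r = ‖a - b‖}.Finite := by
      have h1 : {a : ℂ | F.IsRoot a}.Finite := Polynomial.finite_setOf_isRoot hF0
      refine ((h1.prod h1).image fun z : ℂ × ℂ => ‖z.1 - z.2‖).subset ?_
      rintro r ⟨a, b, ha, hb, rfl⟩
      exact ⟨(a, b), ⟨ha, hb⟩, rfl⟩
    exact hfin.bddAbove
  have hle : ∀ i j, ‖θ i - θ j‖ ≤ spr F := fun i j =>
    le_csSup hbdd ⟨θ i, θ j, hroot i, hroot j, rfl⟩
  have h0 : 0 ≤ spr F := (norm_nonneg _).trans (hle 0 0)
  refine ⟨?_, h0⟩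
  have h1 : ‖dsc θ‖ ≤ ∏ i : Fin 5, ∏ j ∈ Finset.univ.filter (fun j => i < j), spr F ^ 2 := by
    rw [dsc, norm_prod]
    refine Finset.prod_le_prod (fun i _ => norm_nonneg _) fun i _ => ?_
    rw [norm_prod]
    refine Finset.prod_le_prod (fun j _ => norm_nonneg _) fun j _ => ?_
    rw [norm_pow]
    exact pow_le_pow_left₀ (norm_nonneg _) (hle i j) 2
  refine h1.trans (le_of_eq ?_)
  simp only [Finset.prod_const]
  have h2 : ∑ i : Fin 5, (Finset.univ.filter (fun j : Fin 5 => i < j)).card = 10 := by decide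
  rw [Finset.prod_pow_eq_pow_sum, h2, ← pow_mul]

theorem dsh (dsr : DsrStatement) : DshStatement := by
  intro K _ _ f hf h5 hs hint
  have hD0 : discr f ≠ 0 := discr_ne_zero hf h5 hs
  -- integrality
  have hlift : f ∈ lifts (algebraMap (𝓞 K) K) := by
    rw [lifts_iff_coeff_lifts]
    intro n
    exact ⟨⟨f.coeff n, hint n⟩, rfl⟩
  obtain ⟨g, hg, hgd, hgm⟩ := lifts_and_natDegree_eq_and_monic hlift hf
  have hDg : discr f = algebraMap (𝓞 K) K (discr g) := by
    rw [← hg]
    exact discr_map_five _ hgm (by rw [hgd, h5])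
  have hDi : IsIntegral ℤ (discr f) := by
    rw [hDg]
    exact (discr g).2
  have hfin1 : ∀ v : FinitePlace K, v (discr f) ≤ 1 := by
    intro v
    rw [hDg, ← FinitePlace.norm_embedding_eq]
    exact FinitePlace.norm_le_one K v.maximalIdeal (discr g)
  have hlogfin : ∀ v : FinitePlace K, Real.log (v (discr f)) ≤ 0 := fun v =>
    Real.log_nonpos (apply_nonneg v _) (hfin1 v)
  -- infinite places
  have hinf : ∀ v : InfinitePlace K, Real.log (v (discr f)) ≤
      20 * Real.log (spr (f.map v.embedding)) := by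
    intro v
    obtain ⟨θ, hθ⟩ := exists_theta (hf.map v.embedding) (by rw [hf.natDegree_map, h5])
    have h1 : v (discr f) = ‖dsc θ‖ := by
      rw [← InfinitePlace.norm_embedding_eq, ← discr_map_five _ hf h5, hθ]
      rcases dsr ℂ θ with h | h <;> rw [h]
      rw [norm_neg]
    obtain ⟨h2, h3⟩ := dsc_le hθ
    have h4 : 0 < v (discr f) := InfinitePlace.pos_iff.2 hD0
    rw [h1] at h4 ⊢
    have h5 := Real.log_le_log h4 h2
    rwa [Real.log_pow] at h5
  have hinfsum : ∑ v : InfinitePlace K, (v.mult : ℝ) * Real.log (v (discr f)) ≤ 20 * lH f := by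
    rw [lH, Finset.mul_sum]
    refine Finset.sum_le_sum fun v _ => ?_
    calc (v.mult : ℝ) * Real.log (v (discr f))
        ≤ (v.mult : ℝ) * (20 * Real.log (spr (f.map v.embedding))) :=
          mul_le_mul_of_nonneg_left (hinf v) (Nat.cast_nonneg _)
      _ = _ := by ring
  have hlogprod : Real.log (∏ v : InfinitePlace K, v (discr f) ^ v.mult) =
      ∑ v : InfinitePlace K, (v.mult : ℝ) * Real.log (v (discr f)) := by
    rw [Real.log_prod]
    · exact Finset.sum_congr rfl fun v _ => Real.log_pow _ _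
    · intro v _
      exact pow_ne_zero _ (InfinitePlace.pos_iff.2 hD0).ne'
  have hpf : ∀ T : Finset (FinitePlace K), (∀ v, v (discr f) ≠ 1 → v ∈ T) →
      ∑ v : InfinitePlace K, (v.mult : ℝ) * Real.log (v (discr f)) +
        ∑ v ∈ T, Real.log (v (discr f)) = 0 := by
    intro T hT
    have h1 := NumberField.prod_abs_eq_one hD0
    rw [finprod_eq_prod_of_mulSupport_subset (s := T) _ (fun v hv => hT v hv)] at h1
    have h2 := congrArg Real.log h1
    rw [Real.log_one, Real.log_mul, hlogprod, Real.log_prod] at h2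
    · exact h2
    · intro v _
      exact (FinitePlace.pos_iff.2 hD0).ne'
    · exact Finset.prod_ne_zero_iff.2 fun v _ => pow_ne_zero _ (InfinitePlace.pos_iff.2 hD0).ne'
    · exact Finset.prod_ne_zero_iff.2 fun v _ => (FinitePlace.pos_iff.2 hD0).ne'
  have hS : ∀ S : Finset (FinitePlace K), - ∑ v ∈ S, Real.log (v (discr f)) ≤ 20 * lH f := by
    intro S
    classical
    have hfs : (Function.mulSupport fun w : FinitePlace K => w (discr f)).Finite :=
      FinitePlace.hasFiniteMulSupport hD0
    set T := S ∪ hfs.toFinset with hT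
    have h1 := hpf T (fun v hv => Finset.mem_union_right _ (by
      rw [Set.Finite.mem_toFinset]
      exact hv))
    have h2 : ∑ v ∈ T, Real.log (v (discr f)) ≤ ∑ v ∈ S, Real.log (v (discr f)) := by
      have h3 : ∑ v ∈ S, -Real.log (v (discr f)) ≤ ∑ v ∈ T, -Real.log (v (discr f)) :=
        Finset.sum_le_sum_of_subset_of_nonneg Finset.subset_union_left
          fun v _ _ => neg_nonneg.2 (hlogfin v)
      rw [Finset.sum_neg_distrib, Finset.sum_neg_distrib] at h3
      linarith
    linarith
  refine ⟨hD0, hDi, ?_, ?_, hS, hpf⟩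
  · have := hS ∅
    rw [Finset.sum_empty, neg_zero] at this
    linarith
  · rw [← InfinitePlace.prod_eq_abs_norm]
    have h0 : 0 < ∏ v : InfinitePlace K, v (discr f) ^ v.mult :=
      Finset.prod_pos fun v _ => pow_pos (InfinitePlace.pos_iff.2 hD0) _
    rw [← Real.log_le_iff_le_exp h0, hlogprod]
    exact hinfsum

end Pool.Agent.SZT.H69
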